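import Mathlib
import Pool.Agent.R945.CD.Prime3

set_option autoImplicit false

namespace Pool.Agent.Results.MP_72abcc_nt.HalfTotientSquare

open Pool.Agent.R945.LD Pool.Agent.R945.CM Pool.Agent.R945.CD

/-- a prime factor congruent to `3` modulo `4` -/
lemma exists_prime (n : ℕ) (hn : n % 4 = 3) : ∃ p : ℕ, p.Prime ∧ p ∣ n ∧ p % 4 = 3 := by
  induction n using Nat.strong_induction_on with
  | _ n ih =>
    have hp := Nat.minFac_prime (n := n) (by omega)
    obtain ⟨k, hk⟩ := Nat.minFac_dvd n
    by_cases h1 : n.minFac % 4 = 3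
    · exact ⟨n.minFac, hp, Nat.minFac_dvd n, h1⟩
    · have hodd : n.minFac % 2 = 1 := by
        rcases hp.eq_two_or_odd with h | h
        · exfalso
          have : 2 ∣ n := by rw [← h]; exact Nat.minFac_dvd n
          omega
        · exact h
      have h2 : n.minFac % 4 = 1 := by omega
      have h3 : k % 4 = 3 := by
        have h4 : n % 4 = ((n.minFac % 4) * (k % 4)) % 4 := by
          conv_lhs => rw [hk]
          exact Nat.mul_mod _ _ _
        rw [h2, hn] at h4
        omega
      have hkn : k < n := by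
        have hk0 : k ≠ 0 := by rintro rfl; omega
        calc k < 2 * k := by omega
          _ ≤ n.minFac * k := Nat.mul_le_mul_right _ hp.two_le
          _ = n := hk.symm
      obtain ⟨q, hq1, hq2, hq3⟩ := ih k hkn h3
      exact ⟨q, hq1, hq2.trans ⟨n.minFac, by rw [mul_comm]; exact hk⟩, hq3⟩

theorem result (n : ℕ) (hn : n % 8 = 3) :
    ∃ x : ℤ, (Matrix.of fun j k : Fin (n - 3) => jacobiSym (((j : ℤ) + 2) ^ 2 +
      3 * ((j : ℤ) + 2) * ((k : ℤ) + 2) + 2 * ((k : ℤ) + 2) ^ 2) n).det =
      ((Nat.totient n / 2 : ℕ) : ℤ) * x ^ 2 := by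
  obtain ⟨p, hp, hpn, hp4⟩ := exists_prime n (by omega)
  have : Fact p.Prime := ⟨hp⟩
  obtain ⟨m', hm'⟩ := hpn
  have hp2 : p ≠ 2 := by
    rintro rfl
    omega
  by_cases hm1 : m' = 1
  · subst hm1
    rw [mul_one] at hm'
    subst hm'
    obtain ⟨x, hx⟩ := prime_case n hn
    refine ⟨x, ?_⟩
    rw [Nat.totient_prime hp, ← hx]
    congr 1
    ext j k
    rw [Matrix.of_apply, Matrix.of_apply, ← jacobiSym.legendreSym.to_jacobiSym]
    simp only [legendreSym, q]
    push_cast
    rfl
  · have hm3 : 3 ≤ m' := by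
      have h0 : m' ≠ 0 := by rintro rfl; omega
      have h2 : m' ≠ 2 := by rintro rfl; omega
      omega
    have hS : S p ((3 : ℤ) : ZMod p) ((2 : ℤ) : ZMod p) = 0 := by
      have h1 := sum_qff (p := p) hp4
      rw [← zero_add (∑ t ∈ Finset.univ.erase (0 : ZMod p), q p t * ff p t),
        show (0 : ℤ) = q p 0 * ff p 0 by rw [q_zero, zero_mul],
        Finset.add_sum_erase Finset.univ (fun t => q p t * ff p t) (Finset.mem_univ (0 : ZMod p))] at h1
      rw [q_zero, zero_mul] at h1
      push_cast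
      exact h1
    exact ⟨0, by rw [det_composite hp2 m' hm3 3 2 hS n hm']; simp⟩

end Pool.Agent.Results.MP_72abcc_nt.HalfTotientSquare
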