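import Mathlib
import Pool.Agent.R442.JacC

/-!
# The Jacobi symbol determinant `{3,2}_n` for `n ≡ 3 (mod 8)`
-/

set_option autoImplicit false

namespace Pool.Agent.Results.MP_72abcc_nt.JacobiDeterminant

open Matrix Pool.Agent.R442.Jac

/-- `{c,d}_n`: the determinant of the matrix of Jacobi symbols of `j^2 + c j k + d k^2` modulo `n`,
where `j` and `k` run over the integers with `1 < j, k < n - 1`. -/
noncomputable def bra (c d : ℤ) (n : ℕ) : ℤ :=
  (Matrix.of fun j k : Finset.Ioo (1 : ℤ) ((n : ℤ) - 1) =>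
    jacobiSym ((j : ℤ) ^ 2 + c * (j : ℤ) * (k : ℤ) + d * (k : ℤ) ^ 2) n).det

/-- the enumeration of the index set -/
def idx (n : ℕ) : Fin (n - 3) ≃ Finset.Ioo (1 : ℤ) ((n : ℤ) - 1) where
  toFun i := ⟨((i : ℕ) : ℤ) + 2, by
    have := i.2
    rw [Finset.mem_Ioo]
    omega⟩
  invFun x := ⟨((x : ℤ) - 2).toNat, by
    have := Finset.mem_Ioo.1 x.2
    omega⟩
  left_inv i := by
    apply Fin.ext
    simp
  right_inv x := by
    apply Subtype.ext
    have := Finset.mem_Ioo.1 x.2
    simp only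
    omega

theorem bra_eq (n : ℕ) : bra 3 2 n = (N n).det := by
  unfold bra
  rw [← Matrix.det_submatrix_equiv_self (idx n)]
  rfl

theorem det_congr (m n : ℕ) (h : m = n) (F : ℕ → ℕ → ℤ) :
    (Matrix.of fun j k : Fin m => F j k).det = (Matrix.of fun j k : Fin n => F j k).det := by
  subst h
  rfl

theorem prime_eq (p s : ℕ) [hp : Fact p.Prime] (hps : p = 2 * s + 3) :
    (N p).det = (M2 p s).det := by
  unfold N
  rw [det_congr (p - 3) (2 * s) (by omega) (fun j k =>
    jacobiSym (Q ((j : ℤ) + 2) ((k : ℤ) + 2)) p)]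
  congr 1
  ext j k
  unfold M2 X
  rw [of_apply, of_apply, embE_inr, embE_inr, ← jacobiSym.legendreSym.to_jacobiSym]
  unfold legendreSym Q
  congr 1
  push_cast
  ring

/-- For every `n ≡ 3 (mod 8)` there is an integer `x` with `{3,2}_n = (φ(n)/2) x^2`. -/
theorem result : ∀ n : ℕ, n % 8 = 3 →
    ∃ x : ℤ, (bra 3 2 n : ℚ) = (Nat.totient n : ℚ) / 2 * (x : ℚ) ^ 2 := by
  intro n hn
  rw [bra_eq]
  by_cases hpr : n.Prime
  · have : Fact n.Prime := ⟨hpr⟩
    obtain ⟨s, hs⟩ : ∃ s, n = 2 * s + 3 := ⟨(n - 3) / 2, by omega⟩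
    obtain ⟨x, hx⟩ := prime_case hs hn
    refine ⟨x, ?_⟩
    rw [prime_eq n s hs, hx, Nat.totient_prime hpr]
    have h1 : n - 1 = 2 * (s + 1) := by omega
    rw [h1]
    push_cast
    ring
  · refine ⟨0, ?_⟩
    obtain ⟨p, hp, ⟨m, hm⟩, hp4⟩ := exists_prime n (by omega)
    have hm0 : 0 < m := by
      rcases Nat.eq_zero_or_pos m with h | h
      · rw [h, mul_zero] at hm
        omega
      · exact h
    have hm1 : m ≠ 1 := by
      intro h
      rw [h, mul_one] at hm
      exact hpr (hm ▸ hp)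
    have hdet : (N n).det = 0 := by
      by_cases hpm : p ∣ m
      · exact det_sq n p m hp hm hpm (by omega) hm0
      · have : Fact p.Prime := ⟨hp⟩
        refine det_cop n p m hm hpm hp4 ?_
        have h0 : p * m % 4 = 3 := by rw [← hm]; omega
        rw [Nat.mul_mod, hp4] at h0
        omega
    rw [hdet]
    simp

end Pool.Agent.Results.MP_72abcc_nt.JacobiDeterminant
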